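import Mathlib
import Pool.Agent.H64.GS.B7
import Pool.Agent.H40.GS.Core
import Pool.Agent.H40.GS.Char
import Pool.Agent.H47.GS.Dim
import Pool.Agent.H59.GS.QuadRel

/-!
# Selmer groups over multiquadratic fields in thin families, for all residually trivial
# representations at once

`S` is a finite set of prime numbers which contains `2`, `D_1, …, D_r` are nonzero polynomials over
`ℚ`, `D_i (m, w) = w ^ (deg D_i) D_i (m / w)` the corresponding binary forms and
`K_{m,w} = ℚ(√(D_1 (m, w)), …, √(D_r (m, w)))`.  For every pair `(m, w)` of coprime integers let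
`ρ_{m,w}` be ANY continuous representation of the absolute Galois group of `ℚ` of dimension `N` over
`ℤ₂` which is unramified outside `S` and trivial modulo `2`.  The group of the classes in
`H¹ (K_{m,w}, V)`, `V = ρ_{m,w} ⊗ ℚ₂`, which are trivial on the inertia groups at all places of
`K_{m,w}` not over `S`, has finite dimension and all moments of `2 ^ dim` are bounded on average over
the boxes `u < m ≤ u + H`, `1 ≤ w ≤ W` with `H ≥ (|u| + H + W) ^ θ`, uniformly in all `ρ_{m,w}`.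

This group contains the Bloch–Kato group `H¹_f (K_{m,w}, V)` and also, as restriction is injective,
the groups `H¹_f (F, V ⊗ χ)` for all subfields `F` of `K_{m,w}` and all characters `χ` of
`Gal (K_{m,w} / F)`.
-/

set_option autoImplicit false

namespace Pool.Agent.Results.MP_7c08ba_nt.MultiquadraticFields

open Finset NumberField

/-- an algebraic closure of `ℚ` -/
abbrev QBar : Type := AlgebraicClosure ℚ

/-- the absolute Galois group of `ℚ`, with the Krull topology -/
abbrev GQ : Type := QBar ≃ₐ[ℚ] QBar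

/-- the inertia group of a maximal ideal `P` of the ring of all algebraic integers: the
automorphisms which are trivial modulo `P` -/
def inertia (P : Ideal (𝓞 QBar)) : Set GQ :=
  {g | ∀ x : 𝓞 QBar, ∃ y ∈ P, (y : QBar) = g x - x}

/-- the homomorphisms to `GL_N(ℤ₂)` -/
abbrev Rep (N : ℕ) : Type := GQ →* GL (Fin N) ℤ_[2]

/-- the matrix of `ρ g` -/
noncomputable def mat {N : ℕ} (ρ : Rep N) (g : GQ) : Matrix (Fin N) (Fin N) ℤ_[2] := (ρ g : GL (Fin N) ℤ_[2])

/-- `ρ` is a continuous representation over `ℤ₂`, trivial modulo `2`, and unramified outside the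
finite set `S` of prime numbers, which contains `2` -/
structure Admissible {N : ℕ} (S : Finset ℕ) (ρ : Rep N) : Prop where
  two : 2 ∈ S
  continuous : ∀ i j, Continuous fun g => mat ρ g i j
  trivial_mod_two : ∀ g i j,
    (2 : ℤ_[2]) ∣ mat ρ g i j - (1 : Matrix (Fin N) (Fin N) ℤ_[2]) i j
  unramified : ∀ p : ℕ, p.Prime → p ∉ S → ∀ P : Ideal (𝓞 QBar), P.IsMaximal →
    (p : 𝓞 QBar) ∈ P → ∀ g ∈ inertia P, mat ρ g = 1

/-- the action on `V = ℚ₂^N` -/
noncomputable def act {N : ℕ} (ρ : Rep N) (g : GQ) (v : Fin N → ℚ_[2]) : Fin N → ℚ_[2] :=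
  fun i => ∑ j, (mat ρ g i j : ℚ_[2]) * v j

/-- the absolute Galois group of `K = ℚ(√(a 0), …, √(a (r - 1)))` -/
noncomputable def galois {r : ℕ} (a : Fin r → ℚ) : Subgroup GQ :=
  fixingSubgroup GQ {s : QBar | ∃ i, s ^ 2 = (a i : QBar)}

/-- the functions on the subgroup `G` with values in `V = ℚ₂^N`, a vector space over `ℚ₂` -/
def Cochain (N : ℕ) (G : Subgroup GQ) : Type := G → Fin N → ℚ_[2]

noncomputable instance addGroup (N : ℕ) (G : Subgroup GQ) : AddCommGroup (Cochain N G) :=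
  (inferInstance : AddCommGroup (G → Fin N → ℚ_[2]))

noncomputable instance module (N : ℕ) (G : Subgroup GQ) : Module ℚ_[2] (Cochain N G) :=
  (inferInstance : Module ℚ_[2] (G → Fin N → ℚ_[2]))

/-- `c` is a continuous cocycle on the subgroup `G` of the absolute Galois group with values in `V`,
whose restrictions to the intersections of `G` with the inertia groups over all prime numbers
outside `S` are coboundaries -/
structure IsCocycle {N : ℕ} (S : Finset ℕ) (ρ : Rep N) (G : Subgroup GQ)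
    (c : Cochain N G) : Prop where
  continuous : Continuous (X := G) (Y := Fin N → ℚ_[2]) c
  mul : ∀ (g h : G) (i : Fin N), c (g * h) i = c g i + act ρ g (c h) i
  inertia : ∀ p : ℕ, p.Prime → p ∉ S → ∀ P : Ideal (𝓞 QBar), P.IsMaximal → (p : 𝓞 QBar) ∈ P →
      ∃ v : Fin N → ℚ_[2], ∀ g : G, (g : GQ) ∈ inertia P → ∀ i, c g i = act ρ g v i - v i

section

variable {N : ℕ} {S : Finset ℕ} {ρ : Rep N} {G : Subgroup GQ}

lemma act_zero (ρ : Rep N) (g : GQ) (i : Fin N) : act ρ g 0 i = 0 := by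
  simp [act]

lemma act_add (ρ : Rep N) (g : GQ) (v w : Fin N → ℚ_[2]) (i : Fin N) :
    act ρ g (v + w) i = act ρ g v i + act ρ g w i := by
  simp only [act, Pi.add_apply, mul_add, sum_add_distrib]

lemma act_smul (ρ : Rep N) (g : GQ) (x : ℚ_[2]) (v : Fin N → ℚ_[2]) (i : Fin N) :
    act ρ g (x • v) i = x * act ρ g v i := by
  simp only [act, Pi.smul_apply, smul_eq_mul, mul_sum]
  exact sum_congr rfl fun j _ => by ring

lemma IsCocycle.zero : IsCocycle S ρ G 0 :=
  ⟨continuous_const, fun g h i => by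
      show (0 : ℚ_[2]) = 0 + act ρ g 0 i
      rw [act_zero, add_zero],
    fun p _ _ P _ _ => ⟨0, fun g _ i => by
      show (0 : ℚ_[2]) = act ρ g 0 i - 0
      rw [act_zero, sub_zero]⟩⟩

lemma IsCocycle.add {c c' : Cochain N G} (h : IsCocycle S ρ G c) (h' : IsCocycle S ρ G c') :
    IsCocycle S ρ G (c + c') := by
  refine ⟨h.1.add h'.1, fun g k i => ?_, fun p hp hpS P hP hpP => ?_⟩
  · show c (g * k) i + c' (g * k) i = (c g i + c' g i) + act ρ g (c k + c' k) i
    rw [h.2, h'.2, act_add]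
    ring
  · obtain ⟨v, hv⟩ := h.3 p hp hpS P hP hpP
    obtain ⟨v', hv'⟩ := h'.3 p hp hpS P hP hpP
    refine ⟨v + v', fun g hg i => ?_⟩
    show c g i + c' g i = act ρ g (v + v') i - (v i + v' i)
    rw [hv g hg, hv' g hg, act_add]
    ring

lemma IsCocycle.smul (x : ℚ_[2]) {c : Cochain N G} (h : IsCocycle S ρ G c) :
    IsCocycle S ρ G (x • c) := by
  refine ⟨h.1.const_smul x, fun g k i => ?_, fun p hp hpS P hP hpP => ?_⟩
  · show x * c (g * k) i = x * c g i + act ρ g (x • c k) i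
    rw [h.2, act_smul]
    ring
  · obtain ⟨v, hv⟩ := h.3 p hp hpS P hP hpP
    refine ⟨x • v, fun g hg i => ?_⟩
    show x * c g i = act ρ g (x • v) i - x * v i
    rw [hv g hg, act_smul]
    ring

end

/-- the space of these cocycles -/
noncomputable def cocycles {N : ℕ} (S : Finset ℕ) (ρ : Rep N) (G : Subgroup GQ) :
    Submodule ℚ_[2] (Cochain N G) where
  carrier := {c | IsCocycle S ρ G c}
  zero_mem' := IsCocycle.zero
  add_mem' := IsCocycle.add
  smul_mem' := IsCocycle.smul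

/-- `c` is the coboundary `g ↦ g v - v` of a vector `v` -/
def IsCoboundary {N : ℕ} (ρ : Rep N) (G : Subgroup GQ) (c : Cochain N G) : Prop :=
  ∃ v : Fin N → ℚ_[2], ∀ (g : G) (i : Fin N), c g i = act ρ g v i - v i

/-- the coboundaries among the cocycles -/
noncomputable def coboundaries {N : ℕ} (S : Finset ℕ) (ρ : Rep N) (G : Subgroup GQ) :
    Submodule ℚ_[2] (cocycles S ρ G) where
  carrier := {c | IsCoboundary ρ G c}
  zero_mem' := ⟨0, fun g i => by
    show (0 : ℚ_[2]) = act ρ g 0 i - 0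
    rw [act_zero, sub_zero]⟩
  add_mem' := by
    rintro c c' ⟨v, hv⟩ ⟨v', hv'⟩
    refine ⟨v + v', fun g i => ?_⟩
    show c.1 g i + c'.1 g i = act ρ g (v + v') i - (v i + v' i)
    rw [hv, hv', act_add]
    ring
  smul_mem' := by
    rintro x c ⟨v, hv⟩
    refine ⟨x • v, fun g i => ?_⟩
    show x * c.1 g i = act ρ g (x • v) i - x * v i
    rw [hv, act_smul]
    ring

/-- for `G` the absolute Galois group of `K`, the group of the classes in `H¹(K, V)` which are
trivial on the inertia groups at the places of `K` not over `S` -/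
abbrev Selmer {N : ℕ} (S : Finset ℕ) (ρ : Rep N) (G : Subgroup GQ) : Type :=
  cocycles S ρ G ⧸ coboundaries S ρ G

/-- this group has finite dimension -/
def FiniteSelmer {N : ℕ} (S : Finset ℕ) (ρ : Rep N) (G : Subgroup GQ) : Prop :=
  FiniteDimensional ℚ_[2] (Selmer S ρ G)

/-- its dimension -/
noncomputable def dimSelmer {N : ℕ} (S : Finset ℕ) (ρ : Rep N) (G : Subgroup GQ) : ℕ :=
  Module.finrank ℚ_[2] (Selmer S ρ G)

/-- the value at `(m, w)` of the binary form `w ^ (deg D) D (m / w)` -/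
noncomputable def form (D : Polynomial ℚ) (m : ℤ) (w : ℕ) : ℚ :=
  (w : ℚ) ^ D.natDegree * D.eval ((m : ℚ) / w)

/-- the pairs `(m, w)` of coprime integers with `u < m ≤ u + H` and `1 ≤ w ≤ W` -/
noncomputable def box (u : ℤ) (H W : ℕ) : Finset (ℤ × ℕ) :=
  ((Ioc u (u + H)) ×ˢ (Icc 1 W)).filter (fun q => Int.gcd q.1 q.2 = 1)

lemma act_eq {N : ℕ} (ρ : Rep N) (g : GQ) (v : Fin N → ℚ_[2]) (i : Fin N) :
    act ρ g v i = Pool.Agent.H64.GS.act ρ (Pool.Agent.H64.GS.rt 1) g v i := by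
  have h1 : Pool.Agent.H64.GS.chi (Pool.Agent.H64.GS.rt 1) g = 1 := by
    unfold Pool.Agent.H64.GS.chi
    have h2 : Pool.Agent.H64.GS.rt 1 ^ 2 = (1 : QBar) ^ 2 := by
      rw [Pool.Agent.H64.GS.rt_sq]
      norm_num
    rw [if_pos]
    rcases sq_eq_sq_iff_eq_or_eq_neg.1 h2 with h | h
    · rw [h, map_one]
    · rw [h, map_neg, map_one]
  unfold act Pool.Agent.H64.GS.act
  rw [h1, Int.cast_one, one_mul]
  rfl

lemma galois_eq {r : ℕ} (a : Fin r → ℚ) : galois a = Pool.Agent.H64.GS.GI a univ := by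
  ext g
  unfold galois Pool.Agent.H64.GS.GI
  rw [mem_fixingSubgroup_iff]
  simp only [Finset.mem_univ, iInf_pos, Subgroup.mem_iInf, MulAction.mem_stabilizer_iff]
  refine ⟨fun h i => h _ ⟨i, Pool.Agent.H64.GS.rt_sq _⟩, fun h t ht => ?_⟩
  obtain ⟨i, hi⟩ := ht
  rcases sq_eq_sq_iff_eq_or_eq_neg.1 (hi.trans (Pool.Agent.H64.GS.rt_sq (a i)).symm) with h1 | h1
  · rw [h1, h]
  · rw [h1, smul_neg, h]

/-- the comparison with the space of the helper files -/
noncomputable def toSel {N : ℕ} (S : Finset ℕ) (ρ : Rep N) (G : Subgroup GQ) :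
    cocycles S ρ G →ₗ[ℚ_[2]] Pool.Agent.H64.GS.SelG S ρ (Pool.Agent.H64.GS.rt 1) G where
  toFun c := ⟨c.1, c.2.1, fun g k => funext fun i => by
      rw [c.2.2, act_eq]
      rfl, fun p hp hpS P hP hpP => by
      obtain ⟨v, hv⟩ := c.2.3 p hp hpS P hP hpP
      exact ⟨v, fun g hg => funext fun i => by
        rw [hv g hg, act_eq]
        rfl⟩⟩
  map_add' _ _ := rfl
  map_smul' _ _ := rfl

lemma toSel_injective {N : ℕ} (S : Finset ℕ) (ρ : Rep N) (G : Subgroup GQ) :
    Function.Injective (toSel S ρ G) := by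
  intro c c' h
  have h1 : (toSel S ρ G c).1 = (toSel S ρ G c').1 := congrArg Subtype.val h
  exact Subtype.ext h1

lemma good {N : ℕ} {S : Finset ℕ} {ρ : Rep N} (h : Admissible S ρ) :
    Pool.Agent.H64.GS.Good S ρ :=
  ⟨h.two, h.continuous, h.trivial_mod_two, fun p hp hpS P hP hpP g hg =>
    Units.ext (h.unramified p hp hpS P hP hpP g hg)⟩

lemma dims {N : ℕ} {S : Finset ℕ} {ρ : Rep N} (h : Admissible S ρ) {r : ℕ} {a : Fin r → ℚ}
    (ha : ∀ i, a i ≠ 0) :
    FiniteSelmer S ρ (galois a) ∧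
    dimSelmer S ρ (galois a) ≤ Module.finrank ℚ_[2]
      (Pool.Agent.H64.GS.SelG S ρ (Pool.Agent.H64.GS.rt 1) (Pool.Agent.H64.GS.GI a univ)) := by
  have hfin := (Pool.Agent.H64.GS.SelG_le Pool.Agent.H47.GS.dim
    (Pool.Agent.H40.GS.coreSq Pool.Agent.H40.GS.char) Pool.Agent.H59.GS.quadRel (good h) a ha
    univ 1 one_ne_zero _ (Pool.Agent.H64.GS.rt_sq 1)).1
  rw [← galois_eq] at hfin ⊢
  have h1 : FiniteDimensional ℚ_[2] (cocycles S ρ (galois a)) :=
    FiniteDimensional.of_injective _ (toSel_injective S ρ (galois a))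
  refine ⟨inferInstanceAs (FiniteDimensional ℚ_[2] (Selmer S ρ (galois a))), ?_⟩
  exact (Submodule.finrank_quotient_le _).trans
    (LinearMap.finrank_le_finrank_of_injective (toSel_injective S ρ (galois a)))

/-- **All moments of `2 ^ dim` of the Selmer groups over the fields
`ℚ(√(D_1 (m, w)), …, √(D_r (m, w)))`, uniformly in the representations.** -/
theorem result (N k r : ℕ) (S : Finset ℕ)
    (D : Fin r → Polynomial ℚ) (hD : ∀ i, D i ≠ 0) (θ : ℝ) (hθ : 0 < θ) :
    (∀ ρ : Rep N, Admissible S ρ → ∀ a : Fin r → ℚ, (∀ i, a i ≠ 0) →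
      FiniteSelmer S ρ (galois a)) ∧
    ∃ C : ℝ, ∀ ρ : ℤ → ℕ → Rep N, (∀ m w, Admissible S (ρ m w)) →
      ∀ (u : ℤ) (H W : ℕ), 1 ≤ W → (|(u : ℝ)| + H + W) ^ θ ≤ H →
      ∑ q ∈ (box u H W).filter (fun q : ℤ × ℕ => ∀ i, form (D i) q.1 q.2 ≠ 0),
        ((2 : ℝ) ^ dimSelmer S (ρ q.1 q.2) (galois fun i => form (D i) q.1 q.2)) ^ k
          ≤ C * H * W := by
  classical
  refine ⟨fun ρ hρ a ha => (dims hρ ha).1, ?_⟩
  obtain ⟨C, hC0, hC⟩ := Pool.Agent.H64.GS.final2 k N r Pool.Agent.H47.GS.dim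
    (Pool.Agent.H40.GS.coreSq Pool.Agent.H40.GS.char) Pool.Agent.H59.GS.quadRel S D hD (⌈1 / θ⌉₊)
  refine ⟨C, fun ρ hρ u H W hW hH => ?_⟩
  obtain ⟨h1, h2⟩ := Pool.Agent.H64.QM.box_size hθ hW hH
  refine le_trans ?_ (hC ρ (fun m w => good (hρ m w)) u H W h1 hW h2)
  rw [← Pool.Agent.H64.QM.sum_bx u H W (fun m w => if ∀ i, Pool.Agent.H64.QM.bf (D i) m w ≠ 0 then
        ((2 : ℝ) ^ Module.finrank ℚ_[2] (Pool.Agent.H64.GS.SelG S (ρ m w)
          (Pool.Agent.H64.GS.rt 1)
          (Pool.Agent.H64.GS.GI (fun i => Pool.Agent.H64.QM.bf (D i) m w) univ))) ^ k else 0),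
    ← sum_filter]
  refine sum_le_sum fun q hq => ?_
  have hq2 := (mem_filter.1 hq).2
  exact pow_le_pow_left₀ (by positivity) (pow_le_pow_right₀ (by norm_num)
    (dims (hρ q.1 q.2) hq2).2) _

end Pool.Agent.Results.MP_7c08ba_nt.MultiquadraticFields
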