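import Pool.Agent.H23.BK.Zeros3
import Pool.Agent.H23.BK.EulerH
import Pool.Agent.H18.HL.Sh

/-!
# MP_7c08ba_nt: bounds for the order of vanishing of `L(s, π)` at `s = 0`

Let `F` be an imaginary quadratic field and `π` as in the problem, on `GL_n`, with completed L-function
`L*(s) = A^{s/2} ∏_j (2π)^{-(s+μ_j)} Γ(s+μ_j) · L(s, π)`, `j = 1, …, d`, `d = n`. Let
`C = A ∏_j ((μ_j + 1) / (2π))²` be the analytic conductor. Nothing is assumed on the zeros. We show that `L*`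
has at most `bound d C ε = (1 + 4ε) / (2π) · log C + (3d / ε) log (1 / ε)` real zeros, counted with multiplicity,
for every `0 < ε ≤ 1/4`, and so at most `bound' d C = (log C) / (2π) + √(d log C) (1 + (3/2) log (log C / d))` of
them if `log C ≥ 16 d`. The order of vanishing of `L(s, π)` at `s = 0`, the conjectural dimension of the Selmer
group `H¹_f(F, ρ)`, obeys both bounds.

* (A) **unconditionally for `n = 1`**: `π` is any Hecke character of `F` of infinity type `(2m - 1, 0)`, up to the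
  power of the norm which moves the centre of symmetry to `0` (every algebraic Hecke character of weight `-1` is of
  this form, or the complex conjugate of one);
* (B) **unconditionally for `n = 2`**, `π` the base change to `F` of a newform of weight 2 whose level is
  prime to the discriminant of `F` (for instance the `π` of an elliptic curve over `ℚ`);
* (C) for all `n` and all number fields `F` under the hypothesis that the completed L-function is entire, bounded in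
  vertical strips and satisfies the functional equation `L*(-s) = w L*(s)`.

Proof. The real zeros are divided out by the functions `sin (κ (z - β)) / cos (κ (z + β))`, of absolute value one on
the boundary of the strip `|Re z| ≤ h = 1/2 + 2ε` for `κ = π / (4h)`; `L*` on the boundary is compared with
`L*(1/2 + ε)`. The gamma factors are compared by means of `Γ(x + ε) ≤ x^ε Γ(x)`, and the Euler product is
bounded from both sides by a power of a zeta function.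
-/

set_option autoImplicit false

namespace Pool.Agent.Results.MP_7c08ba_nt.OrderBound

open IsDedekindDomain NumberField Filter Topology Complex Set

/-- The Euler factors of `L(s, π)`, `π` on `GL_n` over `F`: inverse roots `root v j`, `j = 1, …, n`, of absolute
value at most `q_v^{-1/2}` (with zeros added at the ramified places). -/
structure EulerData (F : Type) [Field F] [NumberField F] (n : ℕ) where
  root : HeightOneSpectrum (𝓞 F) → Fin n → ℂ
  root_le : ∀ v j, ‖root v j‖ ≤ (Real.sqrt (Ideal.absNorm v.asIdeal))⁻¹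

variable {F : Type} [Field F] [NumberField F] {n : ℕ}

/-- the Euler factor at `v` -/
noncomputable def EulerData.factor (D : EulerData F n) (s : ℂ) (v : HeightOneSpectrum (𝓞 F)) : ℂ :=
  (∏ j, (1 - D.root v j * (Ideal.absNorm v.asIdeal : ℂ) ^ (-s)))⁻¹

/-- `L(s, π)` -/
noncomputable def EulerData.L (D : EulerData F n) (s : ℂ) : ℂ := ∏' v, D.factor s v

/-- the archimedean factor `∏_j (2π)^{-(s+μ_j)} Γ(s+μ_j)` -/
noncomputable def archFactor {d : ℕ} (μ : Fin d → ℝ) (s : ℂ) : ℂ :=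
  ∏ j, (((2 * Real.pi : ℝ) : ℂ) ^ (-(s + μ j)) * Complex.Gamma (s + μ j))

/-- `Λ` is the completed L-function: entire, bounded in vertical strips, given by the Euler product for
`Re s > 1/2`, with a functional equation `Λ(-s) = w Λ(s)`. -/
structure Completed {d : ℕ} (D : EulerData F n) (A : ℝ) (μ : Fin d → ℝ) (w : ℂ) (Λ : ℂ → ℂ) : Prop where
  level : 0 < A
  shifts : ∀ j, 0 < μ j
  sign : w ≠ 0
  entire : Differentiable ℂ Λ
  bounded : ∀ a b : ℝ, ∃ C : ℝ, ∀ s : ℂ, a ≤ s.re → s.re ≤ b → ‖Λ s‖ ≤ C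
  symm : ∀ s : ℂ, Λ (-s) = w * Λ s
  series : ∀ s : ℂ, 1 / 2 < s.re → Λ s = (A : ℂ) ^ (s / 2) * archFactor μ s * D.L s

/-- the analytic conductor `A ∏_j ((μ_j + 1) / (2π))²` -/
noncomputable def conductor {d : ℕ} (A : ℝ) (μ : Fin d → ℝ) : ℝ := A * ∏ j, ((μ j + 1) / (2 * Real.pi)) ^ 2

/-- `(1 + 4ε) / (2π) * log C + (3d / ε) * log (1 / ε)` -/
noncomputable def bound (d : ℕ) (C ε : ℝ) : ℝ :=
  (1 + 4 * ε) / (2 * Real.pi) * Real.log C + 3 * d / ε * Real.log (1 / ε)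

/-- `(log C) / (2π) + √(d log C) (1 + (3/2) log (log C / d))` -/
noncomputable def bound' (d : ℕ) (C : ℝ) : ℝ :=
  Real.log C / (2 * Real.pi) + Real.sqrt (d * Real.log C) * (1 + 3 / 2 * Real.log (Real.log C / d))

lemma euler (D : EulerData F n) {d : ℕ} (hd : n * Module.finrank ℚ F = 2 * d) {s : ℂ} (hs : 1 / 2 < s.re) :
    Multipliable (D.factor s) ∧
    ‖D.L s‖ ≤ ((8 / 5) * ((s.re + 1 / 2) / (s.re - 1 / 2)) ^ 2) ^ d ∧
    (((8 / 5) * ((s.re + 1 / 2) / (s.re - 1 / 2)) ^ 2) ^ d)⁻¹ ≤ ‖D.L s‖ :=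
  Pool.Agent.H23.BK.euler_zero (by rw [Fintype.card_fin]; exact hd) D.root_le hs

lemma zeros {d : ℕ} (hd : n * Module.finrank ℚ F = 2 * d) {D : EulerData F n} {A : ℝ} {μ : Fin d → ℝ} {w : ℂ}
    {Λ : ℂ → ℂ} (h : Completed D A μ w Λ) {ε : ℝ} (h0 : 0 < ε) (h1 : ε ≤ 1 / 4) (Z : Finset ℝ) :
    (∑ x ∈ Z, (analyticOrderNatAt Λ (x : ℂ) : ℝ)) ≤ bound d (conductor A μ) ε :=
  Pool.Agent.H23.BK.real_zeros3 h.level (fun j => (h.shifts j).le) h.sign h.entire h.bounded h.symm h.series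
    (fun _ hs => (euler D hd hs).2) h0 h1 Z

lemma bound_large {d : ℕ} (hd : 0 < d) {C : ℝ} (hC : 16 * d ≤ Real.log C) :
    ∃ ε : ℝ, 0 < ε ∧ ε ≤ 1 / 4 ∧ bound d C ε ≤ bound' d C := by
  have hd' : (0 : ℝ) < d := by exact_mod_cast hd
  have hpi := Real.pi_gt_three
  unfold bound'
  obtain ⟨l, hl⟩ : ∃ l : ℝ, l = Real.log C := ⟨_, rfl⟩
  rw [← hl] at hC
  have hl0 : 0 < l := by linarith
  obtain ⟨ε, hε⟩ : ∃ ε : ℝ, ε = Real.sqrt (d / l) := ⟨_, rfl⟩
  have hε0 : 0 < ε := by rw [hε]; positivity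
  have hε2 : ε ^ 2 = d / l := by rw [hε, Real.sq_sqrt (by positivity)]
  have hε1 : ε ≤ 1 / 4 := by
    rw [hε]
    refine Real.sqrt_le_iff.2 ⟨by norm_num, ?_⟩
    rw [div_le_iff₀ hl0]
    linarith
  refine ⟨ε, hε0, hε1, ?_⟩
  have e1 : ε * l = Real.sqrt (d * l) := by
    have h1 : (ε * l) ^ 2 = d * l := by
      rw [mul_pow, hε2]
      field_simp
    rw [← h1, Real.sqrt_sq (by positivity)]
  have e2 : (d : ℝ) / ε = Real.sqrt (d * l) := by
    rw [← e1, div_eq_iff hε0.ne']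
    have : ε * l * ε = ε ^ 2 * l := by ring
    rw [this, hε2]
    field_simp
  have e3 : Real.log (1 / ε) = (1 / 2) * Real.log (l / d) := by
    rw [hε, one_div, Real.log_inv, Real.log_sqrt (by positivity), Real.log_div hd'.ne' hl0.ne',
      Real.log_div hl0.ne' hd'.ne']
    ring
  have e4 : bound d C ε = l / (2 * Real.pi) + (2 / Real.pi) * (ε * l) + 3 * ((d : ℝ) / ε) * Real.log (1 / ε) := by
    unfold bound
    rw [← hl]
    field_simp
    ring
  rw [e4, e1, e2, e3, ← hl]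
  have h5 : 2 / Real.pi ≤ 1 := by rw [div_le_one (by linarith)]; linarith
  have h6 : 0 ≤ Real.sqrt (d * l) := Real.sqrt_nonneg _
  have h7 := mul_le_mul_of_nonneg_right h5 h6
  linarith

/-- the order of any continuation is that of the completed L-function -/
lemma order_eq {d : ℕ} (hd : n * Module.finrank ℚ F = 2 * d) {D : EulerData F n} {A : ℝ} {μ : Fin d → ℝ} {w : ℂ}
    {Λ : ℂ → ℂ} (h : Completed D A μ w Λ)
    {U : Set ℂ} {E : ℂ → ℂ} (hU : IsOpen U) (hconn : IsConnected U) (hsub : {s : ℂ | (1 / 2 : ℝ) < s.re} ⊆ U)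
    (h1U : (0 : ℂ) ∈ U) (hEa : AnalyticOnNhd ℂ E U) (hEs : ∀ s : ℂ, (1 / 2 : ℝ) < s.re → E s = D.L s) :
    analyticOrderAt E 0 = analyticOrderAt Λ 0 ∧ analyticOrderAt Λ 0 ≠ ⊤ := by
  have hser := h.series
  have hA := h.level
  have hμ := h.shifts
  have hpi := Real.pi_pos
  have hAc : (A : ℂ) ≠ 0 := by exact_mod_cast hA.ne'
  have hpc : ((2 * Real.pi : ℝ) : ℂ) ≠ 0 := by
    have : 0 < 2 * Real.pi := by positivity
    exact_mod_cast this.ne'
  obtain ⟨e, he⟩ : ∃ e : ℂ → ℂ, e = fun s : ℂ => (A : ℂ) ^ (s / 2) *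
      ∏ j, ((2 * Real.pi : ℝ) : ℂ) ^ (-(s + (μ j : ℂ))) := ⟨_, rfl⟩
  have hed : Differentiable ℂ e := by
    rw [he]
    intro s
    refine DifferentiableAt.mul ?_ (DifferentiableAt.fun_finsetProd fun j _ => ?_)
    · exact (differentiableAt_id.div_const 2).const_cpow (Or.inl hAc)
    · exact ((differentiableAt_id.add_const _).neg).const_cpow (Or.inl hpc)
  have hene : ∀ s, e s ≠ 0 := by
    intro s
    rw [he]
    refine mul_ne_zero ?_ (Finset.prod_ne_zero_iff.2 fun j _ => ?_)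
    · rw [Complex.cpow_def_of_ne_zero hAc]
      exact Complex.exp_ne_zero _
    · rw [Complex.cpow_def_of_ne_zero hpc]
      exact Complex.exp_ne_zero _
  obtain ⟨G, hG⟩ : ∃ G : ℂ → ℂ, G = fun s : ℂ => ∏ j, (Complex.Gamma (s + (μ j : ℂ)))⁻¹ := ⟨_, rfl⟩
  have hgd : Differentiable ℂ G := by
    rw [hG]
    intro s
    refine DifferentiableAt.fun_finsetProd fun j _ => ?_
    have h6 : DifferentiableAt ℂ (fun s : ℂ => s + (μ j : ℂ)) s := differentiableAt_id.add_const _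
    exact DifferentiableAt.comp s (g := fun z : ℂ => (Complex.Gamma z)⁻¹)
      (Complex.differentiable_one_div_Gamma (s + (μ j : ℂ))) h6
  have hg1 : G 0 ≠ 0 := by
    rw [hG]
    refine Finset.prod_ne_zero_iff.2 fun j _ => inv_ne_zero (Complex.Gamma_ne_zero_of_re_pos ?_)
    simpa using hμ j
  have hne : ∀ s : ℂ, 1 / 2 < s.re → G s * archFactor μ s = ∏ j, ((2 * Real.pi : ℝ) : ℂ) ^ (-(s + μ j)) := by
    intro s hs
    rw [hG]
    unfold archFactor
    rw [← Finset.prod_mul_distrib]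
    refine Finset.prod_congr rfl fun j _ => ?_
    have hΓ : Complex.Gamma (s + μ j) ≠ 0 := by
      refine Complex.Gamma_ne_zero_of_re_pos ?_
      have := hμ j
      simp
      linarith
    field_simp
  have hEq : EqOn (fun s => G s * Λ s) (fun s => e s * E s) U := by
    refine AnalyticOnNhd.eqOn_of_preconnected_of_eventuallyEq
      (fun s _ => (hgd.analyticAt s).mul (h.entire.analyticAt s))
      (fun s hs => (hed.analyticAt s).mul (hEa s hs)) hconn.isPreconnected (z₀ := 2)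
      (hsub (by simp; norm_num)) ?_
    have hopen : IsOpen {s : ℂ | 1 / 2 < s.re} := isOpen_lt continuous_const Complex.continuous_re
    refine Filter.eventually_of_mem (hopen.mem_nhds (by simp; norm_num)) fun s hs => ?_
    have hs' : 1 / 2 < s.re := hs
    simp only
    rw [hser s hs', hEs s hs', he]
    simp only
    rw [← hne s hs']
    ring
  have hloc : (fun s => G s * Λ s) =ᶠ[𝓝 (0 : ℂ)] fun s => e s * E s :=
    Filter.eventually_of_mem (hU.mem_nhds h1U) fun s hs => hEq hs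
  have o1 : analyticOrderAt (fun s => G s * Λ s) 0 = analyticOrderAt Λ 0 := by
    have := analyticOrderAt_mul (hgd.analyticAt 0) (h.entire.analyticAt 0)
    rw [(hgd.analyticAt 0).analyticOrderAt_eq_zero.2 hg1, zero_add] at this
    exact this
  have o2 : analyticOrderAt (fun s => e s * E s) 0 = analyticOrderAt E 0 := by
    have := analyticOrderAt_mul (hed.analyticAt 0) (hEa 0 h1U)
    rw [(hed.analyticAt 0).analyticOrderAt_eq_zero.2 (hene 0), zero_add] at this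
    exact this
  refine ⟨by rw [← o1, ← o2, analyticOrderAt_congr hloc], ?_⟩
  intro htop
  rw [analyticOrderAt_eq_top] at htop
  have hz : EqOn Λ 0 univ := AnalyticOnNhd.eqOn_zero_of_preconnected_of_eventuallyEq_zero
    (fun s _ => h.entire.analyticAt s) isPreconnected_univ (mem_univ 0) htop
  have h2 := hz (mem_univ 2)
  have h3 := hser 2 (by norm_num)
  rw [h2] at h3
  have hL2 : D.L 2 ≠ 0 := by
    have h5 := (euler D hd (s := 2) (by norm_num)).2.2
    intro h6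
    rw [h6, norm_zero] at h5
    have : 0 < (((8 / 5 : ℝ) * (((2 : ℂ).re + 1 / 2) / ((2 : ℂ).re - 1 / 2)) ^ 2) ^ d)⁻¹ := by
      have e1 : (2 : ℂ).re = 2 := by simp
      rw [e1]
      positivity
    linarith
  have hf2 : (A : ℂ) ^ ((2 : ℂ) / 2) * archFactor μ 2 ≠ 0 := by
    refine mul_ne_zero ?_ ?_
    · rw [Complex.cpow_def_of_ne_zero hAc]
      exact Complex.exp_ne_zero _
    · intro h6
      have h7 := hne 2 (by norm_num)
      rw [h6, mul_zero] at h7
      refine (Finset.prod_ne_zero_iff.2 fun j _ => ?_) h7.symm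
      rw [Complex.cpow_def_of_ne_zero hpc]
      exact Complex.exp_ne_zero _
  exact (mul_ne_zero hf2 hL2) h3.symm

/-- The general theorem, for `π` on `GL_n` over `F` with `n [F : ℚ] = 2d`; for `F` imaginary quadratic, `d = n`.
(1) The Euler product converges to a nonzero number for `Re s > 1/2`. (2) The completed L-function has at most
`bound d C ε` real zeros, counted with multiplicity. (3) It has at most `bound' d C` of them if
`log C ≥ 16 d > 0`. (4) Every analytic continuation of `L(s, π)` to a connected open set which contains `0` and the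
half plane vanishes at `0` to the order of the completed L-function; this order `M`, the conjectural dimension of the
Selmer group, obeys the bounds. -/
theorem general (F : Type) [Field F] [NumberField F] (n d : ℕ) (hd : n * Module.finrank ℚ F = 2 * d)
    (D : EulerData F n) :
    (∀ s : ℂ, 1 / 2 < s.re → Multipliable (D.factor s) ∧ D.L s ≠ 0) ∧
    ∀ (A : ℝ) (μ : Fin d → ℝ) (w : ℂ) (Λ : ℂ → ℂ), Completed D A μ w Λ →
      (∀ ε : ℝ, 0 < ε → ε ≤ 1 / 4 → ∀ Z : Finset ℝ,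
        (∑ x ∈ Z, (analyticOrderNatAt Λ (x : ℂ) : ℝ)) ≤ bound d (conductor A μ) ε) ∧
      (0 < d → 16 * d ≤ Real.log (conductor A μ) → ∀ Z : Finset ℝ,
        (∑ x ∈ Z, (analyticOrderNatAt Λ (x : ℂ) : ℝ)) ≤ bound' d (conductor A μ)) ∧
      (∀ (U : Set ℂ) (E : ℂ → ℂ), IsOpen U → IsConnected U → {s : ℂ | (1 / 2 : ℝ) < s.re} ⊆ U →
        (0 : ℂ) ∈ U → AnalyticOnNhd ℂ E U → (∀ s : ℂ, (1 / 2 : ℝ) < s.re → E s = D.L s) →
        analyticOrderAt E 0 = (analyticOrderNatAt Λ 0 : ℕ) ∧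
        ∀ M : ℕ, analyticOrderAt E 0 = M →
          (∀ ε : ℝ, 0 < ε → ε ≤ 1 / 4 → (M : ℝ) ≤ bound d (conductor A μ) ε) ∧
          (0 < d → 16 * d ≤ Real.log (conductor A μ) → (M : ℝ) ≤ bound' d (conductor A μ))) := by
  refine ⟨fun s hs => ⟨(euler D hd hs).1, ?_⟩, ?_⟩
  · have h5 := (euler D hd hs).2.2
    intro h6
    rw [h6, norm_zero] at h5
    have h7 : 0 < s.re - 1 / 2 := by linarith
    have h8 : 0 < s.re + 1 / 2 := by linarith
    have : 0 < (((8 / 5) * ((s.re + 1 / 2) / (s.re - 1 / 2)) ^ 2) ^ d)⁻¹ := by positivity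
    linarith
  · intro A μ w Λ h
    have hZ : ∀ ε : ℝ, 0 < ε → ε ≤ 1 / 4 → ∀ Z : Finset ℝ,
        (∑ x ∈ Z, (analyticOrderNatAt Λ (x : ℂ) : ℝ)) ≤ bound d (conductor A μ) ε :=
      fun ε h0 h1 Z => zeros hd h h0 h1 Z
    have hZ' : 0 < d → 16 * d ≤ Real.log (conductor A μ) → ∀ Z : Finset ℝ,
        (∑ x ∈ Z, (analyticOrderNatAt Λ (x : ℂ) : ℝ)) ≤ bound' d (conductor A μ) := by
      intro hd0 hC Z
      obtain ⟨ε, h0, h1, h2⟩ := bound_large hd0 hC
      exact (hZ ε h0 h1 Z).trans h2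
    refine ⟨hZ, hZ', ?_⟩
    intro U E hU hconn hsub h1U hEa hEs
    obtain ⟨o1, o2⟩ := order_eq hd h hU hconn hsub h1U hEa hEs
    have o3 : analyticOrderAt E 0 = (analyticOrderNatAt Λ 0 : ℕ) := by
      rw [o1, Nat.cast_analyticOrderNatAt o2]
    refine ⟨o3, fun M hM => ?_⟩
    rw [o3] at hM
    have hM' : analyticOrderNatAt Λ 0 = M := by exact_mod_cast hM
    refine ⟨fun ε h0 h1 => ?_, fun hd0 hC => ?_⟩
    · have h3 := hZ ε h0 h1 {0}
      rw [Finset.sum_singleton, Complex.ofReal_zero, hM'] at h3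
      exact h3
    · have h3 := hZ' hd0 hC {0}
      rw [Finset.sum_singleton, Complex.ofReal_zero, hM'] at h3
      exact h3

/-- The number of the zeros of `L` at the points of `Z`, counted with multiplicity. -/
noncomputable def zerosOn (L : ℂ → ℂ) (Z : Finset ℝ) : ℝ := ∑ x ∈ Z, (analyticOrderNatAt L (x : ℂ) : ℝ)

/-! ### `n = 1`: Hecke characters -/

/-- The norm `N(I)` of an ideal (`0` for the zero ideal, whose residue ring is infinite). -/
noncomputable def norm {R : Subring ℂ} (I : Ideal R) : ℝ := (Nat.card (R ⧸ I) : ℝ)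

/-- `ψ`, a function on the ideals of `R`, is a primitive Hecke character of conductor `q` and infinity
type `(k, 0)`: it is multiplicative, vanishes exactly at the zero ideal and the ideals not prime to
`q`, satisfies `ψ((α)) = α ^ k` for `α ≡ 1 mod q`, and this fails for every strictly larger ideal `q'`
in place of `q`. -/
structure IsHecke {R : Subring ℂ} (k : ℕ) (q : Ideal R) (ψ : Ideal R → ℂ) : Prop where
  ne_bot : q ≠ ⊥
  mul : ∀ I J : Ideal R, ψ (I * J) = ψ I * ψ J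
  eq_zero : ∀ I : Ideal R, ψ I = 0 ↔ (I = ⊥ ∨ ¬ IsCoprime I q)
  principal : ∀ α : R, α ≠ 0 → α - 1 ∈ q → ψ (Ideal.span {α}) = (α : ℂ) ^ k
  primitive : ∀ q' : Ideal R, q < q' → ∃ α : R, α ≠ 0 ∧ α - 1 ∈ q' ∧ IsCoprime (Ideal.span {α}) q ∧
    ψ (Ideal.span {α}) ≠ (α : ℂ) ^ k

/-- `L` is entire and `L(s) = ∑ ψ(I) N(I)^(-(s+m))` for `Re s > 1/2`; for `ψ` of infinity type `(2m - 1, 0)`
this is `L(s, π)` with the centre of symmetry at `0`. -/
def IsHeckeL {R : Subring ℂ} (m : ℕ) (ψ : Ideal R → ℂ) (L : ℂ → ℂ) : Prop :=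
  Differentiable ℂ L ∧ ∀ s : ℂ, 1 / 2 < s.re →
    HasSum (fun I : Ideal R => ψ I * (norm I : ℂ) ^ (-(s + m))) (L s)

theorem isHecke_iff {R : Subring ℂ} (k : ℕ) (q : Ideal R) (ψ : Ideal R → ℂ) :
    IsHecke k q ψ ↔ Pool.Agent.W192.HK.HC k q ψ :=
  ⟨fun h => ⟨h.ne_bot, h.mul, h.eq_zero, h.principal, h.primitive⟩,
    fun h => ⟨h.ne, h.mul, h.zero, h.princ, h.prim⟩⟩

/-- both bounds from the first -/
lemma both {d : ℕ} (hd : 0 < d) {C : ℝ} {L : ℂ → ℂ} {P : Finset ℝ → Prop}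
    (h : ∀ ε : ℝ, 0 < ε → ε ≤ 1 / 4 → ∀ Z : Finset ℝ, P Z → zerosOn L Z ≤ bound d C ε) :
    (∀ ε : ℝ, 0 < ε → ε ≤ 1 / 4 → ∀ Z : Finset ℝ, P Z → zerosOn L Z ≤ bound d C ε) ∧
    (16 * d ≤ Real.log C → ∀ Z : Finset ℝ, P Z → zerosOn L Z ≤ bound' d C) := by
  refine ⟨h, fun hC Z hZ => ?_⟩
  obtain ⟨ε, h0, h1, h2⟩ := bound_large hd hC
  exact (h ε h0 h1 Z hZ).trans h2

theorem hecke (R : Subring ℂ) (ω : ℂ) (hω : 0 < ω.im)
    (hR : ∀ z : ℂ, z ∈ R ↔ ∃ x y : ℤ, z = x + y * ω) (hded : IsDedekindDomain R)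
    (m : ℕ) (hm : 1 ≤ m) (q : Ideal R) (ψ : Ideal R → ℂ) (hψ : IsHecke (2 * m - 1) q ψ) :
    ∃ L : ℂ → ℂ, IsHeckeL m ψ L ∧ (∀ L' : ℂ → ℂ, IsHeckeL m ψ L' → L' = L) ∧
      (∀ s : ℂ, 1 / 2 < s.re → L s ≠ 0) ∧ analyticOrderAt L 0 ≠ ⊤ ∧
      (∀ ε : ℝ, 0 < ε → ε ≤ 1 / 4 → ∀ Z : Finset ℝ, (∀ x ∈ Z, -(m : ℝ) < x) →
        zerosOn L Z ≤ bound 1 (conductor (4 * ω.im ^ 2 * norm q) fun _ : Fin 1 => (m : ℝ)) ε) ∧
      (16 ≤ Real.log (conductor (4 * ω.im ^ 2 * norm q) fun _ : Fin 1 => (m : ℝ)) →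
        ∀ Z : Finset ℝ, (∀ x ∈ Z, -(m : ℝ) < x) →
        zerosOn L Z ≤ bound' 1 (conductor (4 * ω.im ^ 2 * norm q) fun _ : Fin 1 => (m : ℝ))) := by
  have hQ : Pool.Agent.W192.HK.QR R ω := ⟨hω, hR, hded⟩
  obtain ⟨-, -, hge, -, -, -, -, -, -⟩ := Pool.Agent.H18.HL.all_basic R ω hQ
  have hq : 1 ≤ norm q := hge q hψ.ne_bot
  have hsq : 0 < Real.sqrt (norm q) := Real.sqrt_pos.2 (by linarith)
  have hr : 0 < 2 * ω.im * Real.sqrt (norm q) := by positivity
  obtain ⟨w, Λ, L, h1, h2⟩ := Pool.Agent.H18.HL.exists_datM hQ hm ((isHecke_iff _ _ _).1 hψ)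
  have h3 := both (d := 1) one_pos (C := conductor (4 * ω.im ^ 2 * norm q) fun _ : Fin 1 => (m : ℝ)) (L := L)
    (P := fun Z => ∀ x ∈ Z, -(m : ℝ) < x) (fun ε h0 h4 Z hZ => by
      have h5 := h1.ord_le hr h0 h4 Z hZ
      refine h5.trans (le_of_eq ?_)
      unfold bound conductor
      have e1 : (2 * ω.im * Real.sqrt (Pool.Agent.W192.HK.nm q)) ^ 2 = 4 * ω.im ^ 2 * norm q := by
        change (2 * ω.im * Real.sqrt (norm q)) ^ 2 = _
        rw [mul_pow, Real.sq_sqrt (by linarith)]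
        ring
      rw [e1]
      simp)
  refine ⟨L, ⟨h1.dF, h2⟩, fun L' h => ?_, fun s hs => h1.ne_zero hs, ?_, h3.1, fun hC => h3.2 (by simpa using hC)⟩
  · exact Pool.Agent.H18.HL.eq_of_half' h.1 h1.dF fun s hs => (h.2 s hs).unique (h2 s hs)
  · exact Pool.Agent.H18.HL.order_ne_top h1.dF (h1.ne_zero (by simp; norm_num)) 0

/-! ### `n = 2`: base changes of newforms of weight 2 -/

section newforms

open UpperHalfPlane MatrixGroups CongruenceSubgroup

/-- The `n`-th Fourier coefficient of `f`. -/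
noncomputable def coef {N : ℕ} (f : CuspForm (Gamma1 N : Subgroup (GL (Fin 2) ℝ)) 2) (n : ℕ) : ℂ :=
  (qExpansion 1 f).coeff n

/-- `f ∈ S_2(Γ₁(N))` is a newform with character `η`: `f(γτ) = η(d) (cτ + d)² f(τ)` for all
`γ = (a b; c d) ∈ Γ₀(N)`, the Fourier coefficients `c(n)` of `f` satisfy `c(1) = 1`, `c(ab) = c(a) c(b)` for
coprime `a`, `b`, `c(p^(j+2)) = c(p) c(p^(j+1)) - η(p) p c(p^j)`, for the primes `p ∤ N` also
`conj c(p) = conj η(p) c(p)` and `|c(p)| ≤ 2 √p` (Eichler, Shimura), for the primes `p ∣ N`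
`|c(p)| ≤ √p` (Li); the Fricke involution takes `f` to a multiple of `f^c`, `f^c(τ) = conj f(-conj τ)`:
`f(-1/(Nτ)) = -w N τ² f^c(τ)` with `|w| = 1`. -/
structure IsNewform (N : ℕ) (η : DirichletCharacter ℂ N)
    (f : CuspForm (Gamma1 N : Subgroup (GL (Fin 2) ℝ)) 2) : Prop where
  neb : ∀ γ : SL(2, ℤ), γ ∈ Gamma0 N → ∀ τ : ℍ, f (γ • τ) = η ((γ 1 1 : ℤ) : ZMod N) *
    (((γ 1 0 : ℤ) : ℂ) * (τ : ℂ) + ((γ 1 1 : ℤ) : ℂ)) ^ 2 * f τ
  one : coef f 1 = 1
  mul : ∀ a b : ℕ, Nat.Coprime a b → coef f (a * b) = coef f a * coef f b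
  pow : ∀ p j : ℕ, p.Prime → coef f (p ^ (j + 2)) = coef f p * coef f (p ^ (j + 1)) -
    η (p : ZMod N) * (p : ℂ) * coef f (p ^ j)
  bar : ∀ p : ℕ, p.Prime → ¬ p ∣ N → (starRingEnd ℂ) (coef f p) =
    (starRingEnd ℂ) (η (p : ZMod N)) * coef f p
  good : ∀ p : ℕ, p.Prime → ¬ p ∣ N → ‖coef f p‖ ≤ 2 * Real.sqrt p
  bad : ∀ p : ℕ, p.Prime → p ∣ N → ‖coef f p‖ ≤ Real.sqrt p
  fricke : ∃ w : ℂ, ‖w‖ = 1 ∧ ∀ τ τ' τc : ℍ, (τ' : ℂ) * ((N : ℂ) * (τ : ℂ)) = -1 →
    (τc : ℂ) = -(starRingEnd ℂ) (τ : ℂ) → f τ' = -w * (N : ℂ) * (τ : ℂ) ^ 2 * (starRingEnd ℂ) (f τc)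

/-- the Euler factor at `p` of `L(f, χ, s)` -/
noncomputable def twistFactor {N : ℕ} (η : DirichletCharacter ℂ N)
    (f : CuspForm (Gamma1 N : Subgroup (GL (Fin 2) ℝ)) 2) {q : ℕ} (χ : DirichletCharacter ℂ q) (s : ℂ)
    (p : ℕ) : ℂ :=
  (1 - χ (p : ZMod q) * coef f p * (p : ℂ) ^ (-s) +
    χ (p : ZMod q) ^ 2 * η (p : ZMod N) * (p : ℂ) ^ (1 - 2 * s))⁻¹

/-- `L` is entire and is for `Re s > 1/2` the Euler product of `L(f, s + 1) L(f, χ, s + 1)`; for `χ` the quadratic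
character of `F` this is `L(s, π)`, `π` the base change of `f` to `F`, with the centre of symmetry at `0`. -/
def IsBaseChangeL {N : ℕ} (η : DirichletCharacter ℂ N) (f : CuspForm (Gamma1 N : Subgroup (GL (Fin 2) ℝ)) 2)
    {q : ℕ} (χ : DirichletCharacter ℂ q) (L : ℂ → ℂ) : Prop :=
  Differentiable ℂ L ∧ ∀ s : ℂ, 1 / 2 < s.re → HasProd (fun p : Nat.Primes =>
    twistFactor η f (1 : DirichletCharacter ℂ 1) (s + 1) p * twistFactor η f χ (s + 1) p) (L s)

theorem newf {N : ℕ} {η : DirichletCharacter ℂ N} {f : CuspForm (Gamma1 N : Subgroup (GL (Fin 2) ℝ)) 2}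
    (hf : IsNewform N η f) : ∃ w : ℂ, Pool.Agent.W192.CY.NNewf 1 N η f w := by
  obtain ⟨w, hw, hfr⟩ := hf.fricke
  have hs : ∀ p : ℕ, (p : ℝ) ^ ((2 * ((1 : ℕ) : ℝ) - 1 : ℝ) / 2) = Real.sqrt p := by
    intro p
    rw [Real.sqrt_eq_rpow]
    norm_num
  refine ⟨w, ⟨hf.one, hf.mul, fun p j hp => ?_, hf.bar, fun p hp h => ?_, fun p hp h => ?_,
    fun γ hγ τ => ?_, hw, fun τ τ' τc h1 h2 => ?_⟩⟩
  · have := hf.pow p j hp
    rw [← pow_one ((p : ℕ) : ℂ)] at this
    exact this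
  · rw [hs]
    exact hf.good p hp h
  · rw [hs]
    exact hf.bad p hp h
  · exact hf.neb γ hγ τ
  · have := hfr τ τ' τc h1 h2
    refine this.trans ?_
    rw [pow_one, pow_one]
    ring

theorem baseChange (N : ℕ) [NeZero N] (η : DirichletCharacter ℂ N)
    (f : CuspForm (Gamma1 N : Subgroup (GL (Fin 2) ℝ)) 2) (hf : IsNewform N η f) (q : ℕ) [NeZero q]
    (χ : DirichletCharacter ℂ q) (hco : Nat.Coprime q N) (hpr : χ.IsPrimitive) :
    ∃ L : ℂ → ℂ, IsBaseChangeL η f χ L ∧ (∀ L' : ℂ → ℂ, IsBaseChangeL η f χ L' → L' = L) ∧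
      (∀ s : ℂ, 1 / 2 < s.re → L s ≠ 0) ∧ analyticOrderAt L 0 ≠ ⊤ ∧
      (∀ ε : ℝ, 0 < ε → ε ≤ 1 / 4 → ∀ Z : Finset ℝ, (∀ x ∈ Z, -1 < x) →
        zerosOn L Z ≤ bound 2 (conductor ((N : ℝ) ^ 2 * q ^ 2) fun _ : Fin 2 => 1) ε) ∧
      (32 ≤ Real.log (conductor ((N : ℝ) ^ 2 * q ^ 2) fun _ : Fin 2 => 1) →
        ∀ Z : Finset ℝ, (∀ x ∈ Z, -1 < x) →
        zerosOn L Z ≤ bound' 2 (conductor ((N : ℝ) ^ 2 * q ^ 2) fun _ : Fin 2 => 1)) := by
  have hpi := Real.pi_pos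
  obtain ⟨w, hw⟩ := newf hf
  have hN : (0 : ℝ) < N := by exact_mod_cast Nat.pos_of_ne_zero (NeZero.ne N)
  have hq : (0 : ℝ) < q := by exact_mod_cast Nat.pos_of_ne_zero (NeZero.ne q)
  have hsN : 0 < Real.sqrt N := Real.sqrt_pos.2 hN
  obtain ⟨W1, Λ1, F1, g1, p1⟩ := Pool.Agent.H18.HL.newform_gen hw (1 : DirichletCharacter ℂ 1)
    (Nat.coprime_one_left N) (DirichletCharacter.isPrimitive_one_level_one)
  obtain ⟨W2, Λ2, F2, g2, p2⟩ := Pool.Agent.H18.HL.newform_gen hw χ hco hpr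
  have r1 : 0 < Real.sqrt N * ((1 : ℕ) : ℝ) := by push_cast; linarith
  have r2 : 0 < Real.sqrt N * (q : ℝ) := by positivity
  have s1 := g1.shift r1
  have s2 := g2.shift r2
  have hprod : ∀ s : ℂ, 1 / 2 < s.re → HasProd (fun p : Nat.Primes =>
      twistFactor η f (1 : DirichletCharacter ℂ 1) (s + 1) p * twistFactor η f χ (s + 1) p)
      (F1 (s + 1) * F2 (s + 1)) := by
    intro s hs
    have hs' : 3 / 2 < (s + 1).re := by simp; linarith
    exact (p1 (s + 1) hs').mul (p2 (s + 1) hs')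
  have hne1 : ∀ x : ℂ, analyticOrderAt (fun s => F1 (s + 1)) x ≠ ⊤ := fun x =>
    Pool.Agent.H18.HL.order_ne_top s1.dF (s1.ne_zero (by simp; norm_num)) x
  have hne2 : ∀ x : ℂ, analyticOrderAt (fun s => F2 (s + 1)) x ≠ ⊤ := fun x =>
    Pool.Agent.H18.HL.order_ne_top s2.dF (s2.ne_zero (by simp; norm_num)) x
  have h3 := both (d := 2) two_pos (C := conductor ((N : ℝ) ^ 2 * q ^ 2) fun _ : Fin 2 => 1)
    (L := fun s => F1 (s + 1) * F2 (s + 1)) (P := fun Z => ∀ x ∈ Z, (-1 : ℝ) < x) (fun ε h0 h4 Z hZ => by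
      have hZ' : ∀ x ∈ Z, -(((1 : ℕ)) : ℝ) < x := fun x hx => by push_cast; exact hZ x hx
      have k1 := s1.ord_le r1 h0 h4 Z hZ'
      have k2 := s2.ord_le r2 h0 h4 Z hZ'
      have e0 : zerosOn (fun s => F1 (s + 1) * F2 (s + 1)) Z =
          (∑ x ∈ Z, (analyticOrderNatAt (fun s => F1 (s + 1)) (x : ℂ) : ℝ)) +
          ∑ x ∈ Z, (analyticOrderNatAt (fun s => F2 (s + 1)) (x : ℂ) : ℝ) := by
        unfold zerosOn
        rw [← Finset.sum_add_distrib]
        refine Finset.sum_congr rfl fun x _ => ?_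
        have := analyticOrderNatAt_mul (s1.dF.analyticAt (x : ℂ)) (s2.dF.analyticAt (x : ℂ)) (hne1 x) (hne2 x)
        have h6 : analyticOrderNatAt (fun s => F1 (s + 1) * F2 (s + 1)) (x : ℂ) =
          analyticOrderNatAt (fun s => F1 (s + 1)) (x : ℂ) + analyticOrderNatAt (fun s => F2 (s + 1)) (x : ℂ) := this
        rw [h6]
        push_cast
        rfl
      rw [e0]
      refine (add_le_add k1 k2).trans (le_of_eq ?_)
      unfold bound conductor
      have a1 : 0 < (Real.sqrt N * ((1 : ℕ) : ℝ)) ^ 2 * ((((1 : ℕ) : ℝ) + 1) / (2 * Real.pi)) ^ 2 := by positivity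
      have a2 : 0 < (Real.sqrt N * (q : ℝ)) ^ 2 * ((((1 : ℕ) : ℝ) + 1) / (2 * Real.pi)) ^ 2 := by positivity
      have e1 : (N : ℝ) ^ 2 * (q : ℝ) ^ 2 * ∏ _j : Fin 2, (((1 : ℝ) + 1) / (2 * Real.pi)) ^ 2 =
          ((Real.sqrt N * ((1 : ℕ) : ℝ)) ^ 2 * ((((1 : ℕ) : ℝ) + 1) / (2 * Real.pi)) ^ 2) *
          ((Real.sqrt N * (q : ℝ)) ^ 2 * ((((1 : ℕ) : ℝ) + 1) / (2 * Real.pi)) ^ 2) := by
        rw [Fin.prod_univ_two, mul_pow, mul_pow, Real.sq_sqrt hN.le]
        push_cast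
        ring
      rw [e1, Real.log_mul a1.ne' a2.ne']
      push_cast
      ring)
  refine ⟨fun s => F1 (s + 1) * F2 (s + 1), ⟨s1.dF.mul s2.dF, hprod⟩, fun L' h => ?_, fun s hs => ?_, ?_, h3.1,
    fun hC => h3.2 (by push_cast; linarith)⟩
  · exact Pool.Agent.H18.HL.eq_of_half' h.1 (s1.dF.mul s2.dF) fun s hs => (h.2 s hs).unique (hprod s hs)
  · exact mul_ne_zero (s1.ne_zero hs) (s2.ne_zero hs)
  · have := analyticOrderAt_mul (s1.dF.analyticAt (0 : ℂ)) (s2.dF.analyticAt (0 : ℂ))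
    have h6 : analyticOrderAt (fun s => F1 (s + 1) * F2 (s + 1)) (0 : ℂ) =
      analyticOrderAt (fun s => F1 (s + 1)) (0 : ℂ) + analyticOrderAt (fun s => F2 (s + 1)) (0 : ℂ) := this
    rw [h6]
    exact WithTop.add_ne_top.2 ⟨hne1 0, hne2 0⟩

end newforms

open UpperHalfPlane MatrixGroups CongruenceSubgroup in
/-- **Main theorem.**

(A) `n = 1`. Let `R = ℤ + ℤ ω` be a subring of `ℂ` which is a Dedekind domain, i.e. the ring of integers of an
imaginary quadratic field `F` of discriminant `-4 (im ω)²`, and `ψ` a primitive Hecke character of `F` of conductor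
`q` and infinity type `(2m - 1, 0)`. The L-function `∑ ψ(I) N(I)^(-(s+m))` continues to exactly one entire function
`L`; it has no zeros with `Re s > 1/2`, and at most `bound 1 C ε` real zeros `x > -m`, counted with multiplicity,
and at most `bound' 1 C` of them if `log C ≥ 16`, where `C = |disc F| N(q) ((m + 1) / (2π))²`.

(B) `n = 2`. Let `f` be a newform of weight 2, level `N` and any character, and `χ` a primitive Dirichlet character
modulo `q` prime to `N` (for instance the quadratic character of `F`, `q = |disc F|`). The Euler product of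
`L(f, s + 1) L(f, χ, s + 1)`, for this `χ` of `L(s, π)` with the base change `π` of `f` to `F`, continues
to exactly one entire function `L`; it has no zeros with `Re s > 1/2`, and at most `bound 2 C ε` real
zeros `x > -1`, counted with multiplicity, and at most `bound' 2 C` of them if `log C ≥ 32`, where
`C = N² q² / π⁴`.

(C) For `π` on `GL_n` over any number field `F` with `n [F : ℚ] = 2d`; for `F` imaginary quadratic, `d = n`.
(1) The Euler product converges to a nonzero number for `Re s > 1/2`. (2) The completed L-function has at most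
`bound d C ε` real zeros, counted with multiplicity. (3) It has at most `bound' d C` of them if
`log C ≥ 16 d > 0`. (4) Every analytic continuation of `L(s, π)` to a connected open set which contains `0` and the
half plane vanishes at `0` to the order of the completed L-function; this order `M`, the conjectural dimension of the
Selmer group, obeys the bounds. -/
theorem result :
    -- (A) Hecke characters, unconditional
    (∀ (R : Subring ℂ) (ω : ℂ), 0 < ω.im → (∀ z : ℂ, z ∈ R ↔ ∃ x y : ℤ, z = x + y * ω) →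
      IsDedekindDomain R → ∀ (m : ℕ), 1 ≤ m → ∀ (q : Ideal R) (ψ : Ideal R → ℂ), IsHecke (2 * m - 1) q ψ →
      ∃ L : ℂ → ℂ, IsHeckeL m ψ L ∧ (∀ L' : ℂ → ℂ, IsHeckeL m ψ L' → L' = L) ∧
        (∀ s : ℂ, 1 / 2 < s.re → L s ≠ 0) ∧ analyticOrderAt L 0 ≠ ⊤ ∧
        (∀ ε : ℝ, 0 < ε → ε ≤ 1 / 4 → ∀ Z : Finset ℝ, (∀ x ∈ Z, -(m : ℝ) < x) →
          zerosOn L Z ≤ bound 1 (conductor (4 * ω.im ^ 2 * norm q) fun _ : Fin 1 => (m : ℝ)) ε) ∧
        (16 ≤ Real.log (conductor (4 * ω.im ^ 2 * norm q) fun _ : Fin 1 => (m : ℝ)) →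
          ∀ Z : Finset ℝ, (∀ x ∈ Z, -(m : ℝ) < x) →
          zerosOn L Z ≤ bound' 1 (conductor (4 * ω.im ^ 2 * norm q) fun _ : Fin 1 => (m : ℝ)))) ∧
    -- (B) base changes of newforms of weight 2, unconditional
    (∀ (N : ℕ) [NeZero N] (η : DirichletCharacter ℂ N)
      (f : CuspForm (Gamma1 N : Subgroup (GL (Fin 2) ℝ)) 2), IsNewform N η f →
      ∀ (q : ℕ) [NeZero q] (χ : DirichletCharacter ℂ q), Nat.Coprime q N → χ.IsPrimitive →
      ∃ L : ℂ → ℂ, IsBaseChangeL η f χ L ∧ (∀ L' : ℂ → ℂ, IsBaseChangeL η f χ L' → L' = L) ∧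
        (∀ s : ℂ, 1 / 2 < s.re → L s ≠ 0) ∧ analyticOrderAt L 0 ≠ ⊤ ∧
        (∀ ε : ℝ, 0 < ε → ε ≤ 1 / 4 → ∀ Z : Finset ℝ, (∀ x ∈ Z, -1 < x) →
          zerosOn L Z ≤ bound 2 (conductor ((N : ℝ) ^ 2 * q ^ 2) fun _ : Fin 2 => 1) ε) ∧
        (32 ≤ Real.log (conductor ((N : ℝ) ^ 2 * q ^ 2) fun _ : Fin 2 => 1) →
          ∀ Z : Finset ℝ, (∀ x ∈ Z, -1 < x) →
          zerosOn L Z ≤ bound' 2 (conductor ((N : ℝ) ^ 2 * q ^ 2) fun _ : Fin 2 => 1))) ∧
    -- (C) the general case, under the hypothesis `Completed`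
    ∀ (F : Type) [Field F] [NumberField F] (n d : ℕ), n * Module.finrank ℚ F = 2 * d → ∀ (D : EulerData F n),
    (∀ s : ℂ, 1 / 2 < s.re → Multipliable (D.factor s) ∧ D.L s ≠ 0) ∧
    ∀ (A : ℝ) (μ : Fin d → ℝ) (w : ℂ) (Λ : ℂ → ℂ), Completed D A μ w Λ →
      (∀ ε : ℝ, 0 < ε → ε ≤ 1 / 4 → ∀ Z : Finset ℝ,
        (∑ x ∈ Z, (analyticOrderNatAt Λ (x : ℂ) : ℝ)) ≤ bound d (conductor A μ) ε) ∧
      (0 < d → 16 * d ≤ Real.log (conductor A μ) → ∀ Z : Finset ℝ,
        (∑ x ∈ Z, (analyticOrderNatAt Λ (x : ℂ) : ℝ)) ≤ bound' d (conductor A μ)) ∧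
      (∀ (U : Set ℂ) (E : ℂ → ℂ), IsOpen U → IsConnected U → {s : ℂ | (1 / 2 : ℝ) < s.re} ⊆ U →
        (0 : ℂ) ∈ U → AnalyticOnNhd ℂ E U → (∀ s : ℂ, (1 / 2 : ℝ) < s.re → E s = D.L s) →
        analyticOrderAt E 0 = (analyticOrderNatAt Λ 0 : ℕ) ∧
        ∀ M : ℕ, analyticOrderAt E 0 = M →
          (∀ ε : ℝ, 0 < ε → ε ≤ 1 / 4 → (M : ℝ) ≤ bound d (conductor A μ) ε) ∧
          (0 < d → 16 * d ≤ Real.log (conductor A μ) → (M : ℝ) ≤ bound' d (conductor A μ))) :=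
  ⟨hecke, fun N _ η f hf q _ χ hco hpr => baseChange N η f hf q χ hco hpr,
    fun F _ _ n d hd D => general F n d hd D⟩

end Pool.Agent.Results.MP_7c08ba_nt.OrderBound
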