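import Mathlib
import Pool.Agent.H64.GS.F3
import Pool.Agent.H64.GS.DecR
import Pool.Agent.H62.GS.Root

/-!
# Twists by characters of order `4, 8, 16, ..` over a quadratic field in thin families

`F = ℚ(√δ)` is a quadratic field, for example an imaginary one (or `F = ℚ`, if `δ` is a square), `S`
is a finite set of prime numbers which contains `2` and the prime numbers dividing `δ`, `D` is a
nonzero polynomial over `ℚ` all of whose roots generate fields containing `F`, and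
`D (m, w) = w ^ (deg D) D (m / w)` is the corresponding binary form.  For every pair `(m, w)` of
coprime integers let `χ_{m,w}` be ANY character of the absolute Galois group `G_F` with values in
the roots of unity of order `2 ^ (b + 1)`, `b ≥ 1`, whose `2 ^ b`-th power is the quadratic
character of `F(√(D (m, w)))` and which outside `S` is ramified only over the prime numbers which
are ramified in `ℚ(√(D (m, w)))`, and let `ρ_{m,w}` be ANY continuous representation of `G_F` of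
dimension `N` over `ℤ₂` which is unramified outside `S`, upper unitriangular modulo `2` and trivial
modulo `2` over the root fields of `D`.

The group of the classes in `H¹ (F, ρ_{m,w} ⊗ ℚ₂(ζ) (χ_{m,w}))` which are trivial on the inertia
groups at all places of `F` not over `S` has finite dimension and all moments of `2 ^ dim` are
bounded on average over the boxes `u < m ≤ u + H`, `1 ≤ w ≤ W` with `H ≥ (|u| + H + W) ^ θ`,
uniformly in all the characters `χ_{m,w}` and representations `ρ_{m,w}`.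

If `F` is imaginary quadratic and `χ` is anticyclotomic (`χ (c g c⁻¹) = χ (g)⁻¹` for the complex
conjugation `c`) then `π ⊗ χ` is conjugate self-dual up to the same twist as `π`.  For example every
`D (m, w)` is a norm from `ℚ(√-δ)` if `D` is the minimal polynomial of a number whose field contains
`F` and the square root of `-1`, so that anticyclotomic characters of order `4` as above exist for
all the pairs for which `D (m, w)` is not a square in `F`.  Over `F = ℚ` one can take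
`D = t ^ (2 ^ b) + 1`: the odd prime numbers which divide `m ^ (2 ^ b) + w ^ (2 ^ b)` are congruent
to `1` modulo `2 ^ (b + 1)`.
-/

set_option autoImplicit false

namespace Pool.Agent.Results.MP_7c08ba_nt.TwistsOverQuadraticFields

open Finset NumberField

/-- an algebraic closure of `ℚ` -/
abbrev QBar : Type := AlgebraicClosure ℚ

/-- the absolute Galois group of `ℚ`, with the Krull topology -/
abbrev GQ : Type := QBar ≃ₐ[ℚ] QBar

/-- the inertia group of a maximal ideal `P` of the ring of all algebraic integers: the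
automorphisms which are trivial modulo `P` -/
def inertia (P : Ideal (𝓞 QBar)) : Set GQ :=
  {g | ∀ x : 𝓞 QBar, ∃ y ∈ P, (y : QBar) = g x - x}

/-- the absolute Galois group of `F = ℚ(√δ)` -/
def GF (δ : ℤ) : Subgroup GQ where
  carrier := {g | ∀ s : QBar, s ^ 2 = (δ : QBar) → g s = s}
  mul_mem' := fun {g h} hg hh s hs => by
    show g (h s) = s
    rw [hh s hs, hg s hs]
  one_mem' := fun _ _ => rfl
  inv_mem' := fun {g} hg s hs => by
    have h1 := congrArg g.symm (hg s hs)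
    rw [AlgEquiv.symm_apply_apply] at h1
    exact h1.symm

/-- the homomorphisms from this group to `GL_N(ℤ₂)` -/
abbrev Rep (δ : ℤ) (N : ℕ) : Type := GF δ →* GL (Fin N) ℤ_[2]

/-- the homomorphisms `ψ` from this group to the cyclic group of order `2 ^ (b + 1)`; the character
is `χ = ζ ^ ψ` for a root of unity `ζ` of order `2 ^ (b + 1)` -/
abbrev Chr (δ : ℤ) (b : ℕ) : Type := GF δ →* Multiplicative (ZMod (2 ^ (b + 1)))

/-- the matrix of `ρ g` -/
noncomputable def mat {δ : ℤ} {N : ℕ} (ρ : Rep δ N) (g : GF δ) : Matrix (Fin N) (Fin N) ℤ_[2] :=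
  (ρ g : GL (Fin N) ℤ_[2])

/-- `ρ` is a continuous representation over `ℤ₂`, unramified outside the finite set `S` of prime
numbers, upper unitriangular modulo `2`; all the automorphisms which fix a root of `D` fix `F` and
`ρ` is trivial modulo `2` on them -/
structure Admissible {δ : ℤ} {N : ℕ} (S : Finset ℕ) (D : Polynomial ℚ) (ρ : Rep δ N) :
    Prop where
  continuous : ∀ i j, Continuous fun g => mat ρ g i j
  residual : ∀ g i j, j ≤ i → (2 : ℤ_[2]) ∣ mat ρ g i j - (1 : Matrix (Fin N) (Fin N) ℤ_[2]) i j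
  adapted : ∀ θ : QBar, Polynomial.aeval θ D = 0 → ∀ g : GQ, g θ = θ → ∃ h : g ∈ GF δ, ∀ i j,
    (2 : ℤ_[2]) ∣ mat ρ ⟨g, h⟩ i j - (1 : Matrix (Fin N) (Fin N) ℤ_[2]) i j
  unramified : ∀ p : ℕ, p.Prime → p ∉ S → ∀ P : Ideal (𝓞 QBar), P.IsMaximal →
    (p : 𝓞 QBar) ∈ P → ∀ g : GF δ, (g : GQ) ∈ inertia P → mat ρ g = 1

/-- `ψ` is continuous, modulo `2` it is the character of `F(√x)` and outside `S` it is ramified only
over the prime numbers which are ramified in `ℚ(√x)` -/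
structure IsCharacter {δ : ℤ} {b : ℕ} (S : Finset ℕ) (x : ℚ) (ψ : Chr δ b) : Prop where
  isOpen : IsOpen (ψ.ker : Set (GF δ))
  quadratic : ∀ s : QBar, s ^ 2 = (x : QBar) →
    ∀ g : GF δ, (g : GQ) s = s ↔ Even (Multiplicative.toAdd (ψ g))
  unramified : ∀ p : ℕ, p.Prime → p ∉ S → ∀ P : Ideal (𝓞 QBar), P.IsMaximal →
    (p : 𝓞 QBar) ∈ P → (∀ s : QBar, s ^ 2 = (x : QBar) → ∀ g ∈ inertia P, g s = s) →
    ∀ g : GF δ, (g : GQ) ∈ inertia P → ψ g = 1

/-- `f` is an element of `V ⊗ ℚ₂(ζ)`, `V = ℚ₂^N`, written as a function on `ℤ/2^(b+1)` with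
`f (y + 2 ^ b) = - f y`, on which `ζ` acts by `(ζ f) y = f (y - 1)` -/
def IsAlternating {N b : ℕ} (f : ZMod (2 ^ (b + 1)) → Fin N → ℚ_[2]) : Prop :=
  ∀ y, f (y + 2 ^ b) = - f y

/-- the action `ρ(g) χ(g)`, `χ(g) = ζ ^ ψ(g)` -/
noncomputable def act {δ : ℤ} {N b : ℕ} (ρ : Rep δ N) (ψ : Chr δ b) (g : GF δ)
    (f : ZMod (2 ^ (b + 1)) → Fin N → ℚ_[2]) (y : ZMod (2 ^ (b + 1))) (i : Fin N) : ℚ_[2] :=
  ∑ j, (mat ρ g i j : ℚ_[2]) * f (y - Multiplicative.toAdd (ψ g)) j

/-- the vector space over `ℚ₂` of the functions on `G_F` with values in the functions on `ℤ/2^(b+1)`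
with values in `V` -/
def Cochain (δ : ℤ) (N b : ℕ) : Type := GF δ → ZMod (2 ^ (b + 1)) → Fin N → ℚ_[2]

noncomputable instance addGroup (δ : ℤ) (N b : ℕ) : AddCommGroup (Cochain δ N b) :=
  (inferInstance : AddCommGroup (GF δ → ZMod (2 ^ (b + 1)) → Fin N → ℚ_[2]))

noncomputable instance module (δ : ℤ) (N b : ℕ) : Module ℚ_[2] (Cochain δ N b) :=
  (inferInstance : Module ℚ_[2] (GF δ → ZMod (2 ^ (b + 1)) → Fin N → ℚ_[2]))

/-- `c` is a continuous cocycle on the absolute Galois group of `F` with values in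
`V(χ) = V ⊗ ℚ₂(ζ)(χ)`, whose restrictions to the inertia groups over all prime numbers outside `S`
are coboundaries -/
structure IsCocycle {δ : ℤ} {N b : ℕ} (S : Finset ℕ) (ρ : Rep δ N) (ψ : Chr δ b)
    (c : Cochain δ N b) : Prop where
  continuous : Continuous (X := GF δ) (Y := ZMod (2 ^ (b + 1)) → Fin N → ℚ_[2]) c
  alternating : ∀ g, IsAlternating (c g)
  mul : ∀ g h y i, c (g * h) y i = c g y i + act ρ ψ g (c h) y i
  inertia : ∀ p : ℕ, p.Prime → p ∉ S → ∀ P : Ideal (𝓞 QBar), P.IsMaximal → (p : 𝓞 QBar) ∈ P →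
    ∃ f, IsAlternating f ∧ ∀ g : GF δ, (g : GQ) ∈ inertia P →
      ∀ y i, c g y i = act ρ ψ g f y i - f y i

section

variable {δ : ℤ} {N b : ℕ} {S : Finset ℕ} {ρ : Rep δ N} {ψ : Chr δ b}

lemma act_zero (ρ : Rep δ N) (ψ : Chr δ b) (g : GF δ) (y : ZMod (2 ^ (b + 1))) (i : Fin N) :
    act ρ ψ g 0 y i = 0 := by
  simp [act]

lemma act_add (ρ : Rep δ N) (ψ : Chr δ b) (g : GF δ) (v w : ZMod (2 ^ (b + 1)) → Fin N → ℚ_[2])
    (y : ZMod (2 ^ (b + 1))) (i : Fin N) :
    act ρ ψ g (v + w) y i = act ρ ψ g v y i + act ρ ψ g w y i := by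
  simp only [act, Pi.add_apply, mul_add, sum_add_distrib]

lemma act_smul (ρ : Rep δ N) (ψ : Chr δ b) (g : GF δ) (x : ℚ_[2])
    (v : ZMod (2 ^ (b + 1)) → Fin N → ℚ_[2]) (y : ZMod (2 ^ (b + 1))) (i : Fin N) :
    act ρ ψ g (x • v) y i = x * act ρ ψ g v y i := by
  simp only [act, Pi.smul_apply, smul_eq_mul, mul_sum]
  exact sum_congr rfl fun j _ => by ring

lemma IsAlternating.zero : IsAlternating (0 : ZMod (2 ^ (b + 1)) → Fin N → ℚ_[2]) := fun _ => by
  show (0 : Fin N → ℚ_[2]) = -0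
  rw [neg_zero]

lemma IsAlternating.add {f f' : ZMod (2 ^ (b + 1)) → Fin N → ℚ_[2]} (h : IsAlternating f)
    (h' : IsAlternating f') : IsAlternating (f + f') := fun y => by
  show f (y + 2 ^ b) + f' (y + 2 ^ b) = -(f y + f' y)
  rw [h y, h' y, neg_add]

lemma IsAlternating.smul (x : ℚ_[2]) {f : ZMod (2 ^ (b + 1)) → Fin N → ℚ_[2]}
    (h : IsAlternating f) : IsAlternating (x • f) := fun y => by
  show x • f (y + 2 ^ b) = -(x • f y)
  rw [h y, smul_neg]

lemma IsCocycle.zero : IsCocycle S ρ ψ 0 :=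
  ⟨continuous_const, fun _ => IsAlternating.zero, fun g h y i => by
      show (0 : ℚ_[2]) = 0 + act ρ ψ g 0 y i
      rw [act_zero, add_zero],
    fun p _ _ P _ _ => ⟨0, IsAlternating.zero, fun g _ y i => by
      show (0 : ℚ_[2]) = act ρ ψ g 0 y i - 0
      rw [act_zero, sub_zero]⟩⟩

lemma IsCocycle.add {c c' : Cochain δ N b} (h : IsCocycle S ρ ψ c) (h' : IsCocycle S ρ ψ c') :
    IsCocycle S ρ ψ (c + c') := by
  refine ⟨h.1.add h'.1, fun g => (h.2 g).add (h'.2 g), fun g k y i => ?_,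
    fun p hp hpS P hP hpP => ?_⟩
  · show c (g * k) y i + c' (g * k) y i = (c g y i + c' g y i) + act ρ ψ g (c k + c' k) y i
    rw [h.3, h'.3, act_add]
    ring
  · obtain ⟨v, hv0, hv⟩ := h.4 p hp hpS P hP hpP
    obtain ⟨v', hv0', hv'⟩ := h'.4 p hp hpS P hP hpP
    refine ⟨v + v', hv0.add hv0', fun g hg y i => ?_⟩
    show c g y i + c' g y i = act ρ ψ g (v + v') y i - (v y i + v' y i)
    rw [hv g hg, hv' g hg, act_add]
    ring

lemma IsCocycle.smul (x : ℚ_[2]) {c : Cochain δ N b} (h : IsCocycle S ρ ψ c) :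
    IsCocycle S ρ ψ (x • c) := by
  refine ⟨h.1.const_smul x, fun g => (h.2 g).smul x, fun g k y i => ?_,
    fun p hp hpS P hP hpP => ?_⟩
  · show x * c (g * k) y i = x * c g y i + act ρ ψ g (x • c k) y i
    rw [h.3, act_smul]
    ring
  · obtain ⟨v, hv0, hv⟩ := h.4 p hp hpS P hP hpP
    refine ⟨x • v, hv0.smul x, fun g hg y i => ?_⟩
    show x * c g y i = act ρ ψ g (x • v) y i - x * v y i
    rw [hv g hg, act_smul]
    ring

end

/-- the space of these cocycles -/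
noncomputable def cocycles {δ : ℤ} {N b : ℕ} (S : Finset ℕ) (ρ : Rep δ N) (ψ : Chr δ b) :
    Submodule ℚ_[2] (Cochain δ N b) where
  carrier := {c | IsCocycle S ρ ψ c}
  zero_mem' := IsCocycle.zero
  add_mem' := IsCocycle.add
  smul_mem' := IsCocycle.smul

/-- `c` is the coboundary `g ↦ g f - f` of an element `f` of `V(χ)` -/
def IsCoboundary {δ : ℤ} {N b : ℕ} (ρ : Rep δ N) (ψ : Chr δ b) (c : Cochain δ N b) : Prop :=
  ∃ f, IsAlternating f ∧ ∀ g y i, c g y i = act ρ ψ g f y i - f y i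

/-- the coboundaries among the cocycles -/
noncomputable def coboundaries {δ : ℤ} {N b : ℕ} (S : Finset ℕ) (ρ : Rep δ N) (ψ : Chr δ b) :
    Submodule ℚ_[2] (cocycles S ρ ψ) where
  carrier := {c | IsCoboundary ρ ψ c}
  zero_mem' := ⟨0, IsAlternating.zero, fun g y i => by
    show (0 : ℚ_[2]) = act ρ ψ g 0 y i - 0
    rw [act_zero, sub_zero]⟩
  add_mem' := by
    rintro c c' ⟨v, hv0, hv⟩ ⟨v', hv0', hv'⟩
    refine ⟨v + v', hv0.add hv0', fun g y i => ?_⟩
    show c.1 g y i + c'.1 g y i = act ρ ψ g (v + v') y i - (v y i + v' y i)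
    rw [hv, hv', act_add]
    ring
  smul_mem' := by
    rintro x c ⟨v, hv0, hv⟩
    refine ⟨x • v, hv0.smul x, fun g y i => ?_⟩
    show x * c.1 g y i = act ρ ψ g (x • v) y i - x * v y i
    rw [hv, act_smul]
    ring

/-- the group of the classes in `H¹(F, V(χ))` which are trivial on the inertia groups at the places
of `F` not over `S` -/
abbrev Selmer {δ : ℤ} {N b : ℕ} (S : Finset ℕ) (ρ : Rep δ N) (ψ : Chr δ b) : Type :=
  cocycles S ρ ψ ⧸ coboundaries S ρ ψ

/-- this group has finite dimension -/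
def FiniteSelmer {δ : ℤ} {N b : ℕ} (S : Finset ℕ) (ρ : Rep δ N) (ψ : Chr δ b) : Prop :=
  FiniteDimensional ℚ_[2] (Selmer S ρ ψ)

/-- its dimension over `ℚ₂` -/
noncomputable def dimSelmer {δ : ℤ} {N b : ℕ} (S : Finset ℕ) (ρ : Rep δ N) (ψ : Chr δ b) : ℕ :=
  Module.finrank ℚ_[2] (Selmer S ρ ψ)

/-- the value at `(m, w)` of the binary form `w ^ (deg D) D (m / w)` -/
noncomputable def form (D : Polynomial ℚ) (m : ℤ) (w : ℕ) : ℚ :=
  (w : ℚ) ^ D.natDegree * D.eval ((m : ℚ) / w)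

/-- the pairs `(m, w)` of coprime integers with `u < m ≤ u + H` and `1 ≤ w ≤ W` -/
noncomputable def box (u : ℤ) (H W : ℕ) : Finset (ℤ × ℕ) :=
  ((Ioc u (u + H)) ×ˢ (Icc 1 W)).filter (fun q => Int.gcd q.1 q.2 = 1)

/-- the comparison with the space of the helper files -/
noncomputable def toSel {δ : ℤ} {N b : ℕ} (S : Finset ℕ) (ρ : Rep δ N) (ψ : Chr δ b) :
    cocycles S ρ ψ →ₗ[ℚ_[2]]
      Pool.Agent.H64.GS.SelR S ρ ψ (Pool.Agent.H64.GS.Alt N (b + 1) b) where
  toFun c := ⟨c.1, c.2.1, fun g => c.2.2 g, fun g k y => funext fun i => c.2.3 g k y i,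
    fun p hp hpS P hP hpP => by
      obtain ⟨v, hv0, hv⟩ := c.2.4 p hp hpS P hP hpP
      exact ⟨v, hv0, fun g hg y => funext fun i => hv g hg y i⟩⟩
  map_add' _ _ := rfl
  map_smul' _ _ := rfl

lemma toSel_injective {δ : ℤ} {N b : ℕ} (S : Finset ℕ) (ρ : Rep δ N) (ψ : Chr δ b) :
    Function.Injective (toSel S ρ ψ) := by
  intro c c' h
  have h1 : (toSel S ρ ψ c).1 = (toSel S ρ ψ c').1 := congrArg Subtype.val h
  exact Subtype.ext h1

lemma mem_GF {δ : ℤ} {r : QBar} (hr : r ^ 2 = (δ : QBar)) {g : GQ} : g ∈ GF δ ↔ g r = r := by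
  refine ⟨fun h => h r hr, fun h s hs => ?_⟩
  rcases sq_eq_sq_iff_eq_or_eq_neg.1 (hs.trans hr.symm) with h1 | h1
  · rw [h1, h]
  · rw [h1, map_neg, h]

lemma isClopen_GF (δ : ℤ) : IsClopen ((GF δ : Subgroup GQ) : Set GQ) := by
  obtain ⟨r, hr⟩ : ∃ r : QBar, r ^ 2 = (δ : QBar) := IsAlgClosed.exists_pow_nat_eq _ two_pos
  have h1 : GF δ = (IntermediateField.adjoin ℚ {r}).fixingSubgroup := by
    ext g
    rw [mem_GF hr, IntermediateField.mem_fixingSubgroup_iff]
    refine ⟨fun h x hx => ?_, fun h => h r (IntermediateField.mem_adjoin_simple_self ℚ r)⟩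
    have h2 : IntermediateField.adjoin ℚ {r} ≤
        IntermediateField.fixedField (Subgroup.zpowers g) := by
      rw [IntermediateField.adjoin_le_iff, Set.singleton_subset_iff]
      intro k
      obtain ⟨k, hk⟩ := k
      obtain ⟨n, rfl⟩ := Subgroup.mem_zpowers_iff.1 hk
      show (g ^ n) r = r
      have h3 : g ∈ MulAction.stabilizer GQ r := h
      exact (MulAction.stabilizer GQ r).zpow_mem h3 n
    exact h2 hx ⟨g, Subgroup.mem_zpowers g⟩
  have hfd : FiniteDimensional ℚ (IntermediateField.adjoin ℚ {r}) :=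
    IntermediateField.adjoin.finiteDimensional (Algebra.IsIntegral.isIntegral r)
  rw [h1]
  exact ⟨IntermediateField.fixingSubgroup_isClosed _, IntermediateField.fixingSubgroup_isOpen _⟩

lemma quad_of {δ : ℤ} {S : Finset ℕ} (h2 : 2 ∈ S)
    (hS : ∀ p : ℕ, p.Prime → (p : ℤ) ∣ δ → p ∈ S) : Pool.Agent.H64.GS.Quad1 S (GF δ) := by
  obtain ⟨r, hr⟩ : ∃ r : QBar, r ^ 2 = (δ : QBar) := IsAlgClosed.exists_pow_nat_eq _ two_pos
  refine ⟨isClopen_GF δ, fun g h hg hh => ?_, fun p hp hpS P hP hpP g hg => ?_⟩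
  · rw [mem_GF hr] at hg hh ⊢
    have h3 := (Pool.Agent.H64.GS.sq_fix hr g).resolve_left hg
    have h4 := (Pool.Agent.H64.GS.sq_fix hr h).resolve_left hh
    show g (h r) = r
    rw [h4, map_neg, h3, neg_neg]
  · rw [mem_GF hr]
    exact Pool.Agent.H40.GS.fix_unit hp (fun h => hpS (h ▸ h2)) hP hpP
      (fun h => hpS (hS p hp h)) hr hg

lemma uni_of {δ : ℤ} {N : ℕ} {S : Finset ℕ} (h2 : 2 ∈ S) {D : Polynomial ℚ} {ρ : Rep δ N}
    (h : Admissible S D ρ) :
    Pool.Agent.H64.GS.UniR S ρ ∧ Pool.Agent.H64.GS.AdpM 2 D ρ :=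
  ⟨⟨h2, h.continuous, h.residual, fun p hp hpS P hP hpP g hg =>
    Units.ext (h.unramified p hp hpS P hP hpP g hg)⟩, h.adapted⟩

lemma cyc_of {δ : ℤ} {b : ℕ} {S : Finset ℕ} {x : ℚ} {ψ : Chr δ b} (h : IsCharacter S x ψ) :
    Pool.Agent.H64.GS.CycR S (Pool.Agent.H64.GS.rt x) ψ := by
  refine ⟨?_, h.quadratic _ (Pool.Agent.H64.GS.rt_sq x),
    fun p hp hpS P hP hpP hfix g hg => ?_⟩
  · rw [continuous_discrete_rng]
    intro y
    rw [isOpen_iff_mem_nhds]
    intro g hg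
    have h1 : (fun k : GF δ => g⁻¹ * k) ⁻¹' (ψ.ker : Set (GF δ)) ∈ nhds g := by
      refine (h.isOpen.preimage (continuous_const.mul continuous_id)).mem_nhds ?_
      show g⁻¹ * g ∈ ψ.ker
      rw [inv_mul_cancel]
      exact ψ.ker.one_mem
    refine Filter.mem_of_superset h1 fun k hk => ?_
    have h2 : ψ (g⁻¹ * k) = 1 := hk
    rw [map_mul, map_inv, inv_mul_eq_one] at h2
    show Multiplicative.toAdd (ψ k) = y
    rw [← h2]
    exact hg
  · have h1 := h.unramified p hp hpS P hP hpP (fun s hs g hg => ?_) g hg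
    · show Multiplicative.toAdd (ψ g) = 0
      rw [h1]
      rfl
    · exact (Pool.Agent.H64.GS.fix_iff (x := x) (y := x) (t := 1) one_ne_zero (by ring) hs
        (Pool.Agent.H64.GS.rt_sq x) g).2 (hfix g hg)

lemma mom {b : ℕ} (hb : 1 ≤ b) : Pool.Agent.H64.GS.StMomM 2 b :=
  Pool.Agent.H64.GS.F3.momM (Pool.Agent.H64.GS.selM (Or.inr ⟨rfl, hb⟩) Pool.Agent.H64.GS.coreM
    Pool.Agent.H64.GS.decR) Pool.Agent.H62.GS.root

lemma dims {δ : ℤ} {N b : ℕ} (S : Finset ℕ) (ρ : Rep δ N) (ψ : Chr δ b)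
    (hfin : FiniteDimensional ℚ_[2]
      (Pool.Agent.H64.GS.SelR S ρ ψ (Pool.Agent.H64.GS.Alt N (b + 1) b))) :
    FiniteSelmer S ρ ψ ∧ dimSelmer S ρ ψ ≤ Module.finrank ℚ_[2]
      (Pool.Agent.H64.GS.SelR S ρ ψ (Pool.Agent.H64.GS.Alt N (b + 1) b)) := by
  have h1 : FiniteDimensional ℚ_[2] (cocycles S ρ ψ) :=
    FiniteDimensional.of_injective _ (toSel_injective S ρ ψ)
  refine ⟨inferInstanceAs (FiniteDimensional ℚ_[2] (Selmer S ρ ψ)), ?_⟩
  exact (Submodule.finrank_quotient_le _).trans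
    (LinearMap.finrank_le_finrank_of_injective (toSel_injective S ρ ψ))

open Classical in
/-- **All moments of `2 ^ dim` of the Selmer groups of `ρ ⊗ χ`, `χ` a character of order
`2 ^ (b + 1) ≥ 4` of the absolute Galois group of `F` whose power of order `2` is the quadratic
character of `F(√(D (m, w)))`, uniformly in the characters and representations.** -/
theorem result (N k b : ℕ) (hb : 1 ≤ b) (δ : ℤ) (S : Finset ℕ) (h2 : 2 ∈ S)
    (hS : ∀ p : ℕ, p.Prime → (p : ℤ) ∣ δ → p ∈ S) (D : Polynomial ℚ) (hD : D ≠ 0)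
    (θ : ℝ) (hθ : 0 < θ) :
    (∀ ρ : Rep δ N, Admissible S D ρ → ∀ x : ℚ, x ≠ 0 →
      ∀ ψ : Chr δ b, IsCharacter S x ψ → FiniteSelmer S ρ ψ) ∧
    ∃ C : ℝ, ∀ (ρ : ℤ → ℕ → Rep δ N) (ψ : ℤ → ℕ → Chr δ b),
      (∀ m w, Admissible S D (ρ m w)) →
      ∀ (u : ℤ) (H W : ℕ), 1 ≤ W → (|(u : ℝ)| + H + W) ^ θ ≤ H →
      ∑ q ∈ (box u H W).filter (fun q : ℤ × ℕ => form D q.1 q.2 ≠ 0 ∧
          IsCharacter S (form D q.1 q.2) (ψ q.1 q.2)),
        ((2 : ℝ) ^ dimSelmer S (ρ q.1 q.2) (ψ q.1 q.2)) ^ k ≤ C * H * W := by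
  obtain ⟨hval, hnn, C, hC0, hC⟩ := mom hb k N (b + 1) (GF δ) S D (⌈1 / θ⌉₊) (quad_of h2 hS)
    (Nat.lt_succ_self b) hD
  refine ⟨fun ρ hρ x hx ψ hψ => (dims S ρ ψ
    (hval ρ ψ x (uni_of h2 hρ).1 (uni_of h2 hρ).2 hx (cyc_of hψ)).1).1, C,
    fun ρ ψ hρ u H W hW hH => ?_⟩
  obtain ⟨h1, h3⟩ := Pool.Agent.H64.QM.box_size hθ hW hH
  refine le_trans ?_ (hC u H W h1 hW h3)
  rw [← Pool.Agent.H64.QM.sum_bx u H W (fun m w => if Pool.Agent.H64.QM.bf D m w ≠ 0 then
      Pool.Agent.H64.GS.FKM 2 (GF δ) N (b + 1) b S D k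
        (Pool.Agent.H64.QM.bf D m w) else 0), ← sum_filter]
  refine le_trans (sum_le_sum fun q hq => ?_) (sum_le_sum_of_subset_of_nonneg ?_ ?_)
  · obtain ⟨h4, h5⟩ := (mem_filter.1 hq).2
    obtain ⟨h6, h7⟩ := hval (ρ q.1 q.2) (ψ q.1 q.2) _ (uni_of h2 (hρ q.1 q.2)).1
      (uni_of h2 (hρ q.1 q.2)).2 h4 (cyc_of h5)
    exact (pow_le_pow_left₀ (by positivity) (pow_le_pow_right₀ (by norm_num)
      (dims S _ _ h6).2) _).trans h7
  · intro q hq
    rw [mem_filter] at hq ⊢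
    exact ⟨hq.1, hq.2.1⟩
  · intro q _ _
    exact hnn _

end Pool.Agent.Results.MP_7c08ba_nt.TwistsOverQuadraticFields
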